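import Mathlib

set_option autoImplicit false

namespace Pool.Agent.Results.MP_975ab8_al.CharP

open Matrix Finset

/-- The circulant matrix with first row `v`, rows and columns indexed by an additive group `G`
(for `G = ZMod n` this is the usual `n × n` circulant matrix): entry `(i, j)` is `v (j - i)`. -/
def cir {R G : Type*} [AddCommGroup G] (v : G → R) : Matrix G G R :=
  Matrix.of fun i j => v (j - i)

/-- `count n R a`: the number of `n × n` circulant matrices over `R` with determinant `a`. -/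
noncomputable def count (n : ℕ) [NeZero n] (R : Type*) [CommRing R] (a : R) : ℕ :=
  Nat.card {A : Matrix (ZMod n) (ZMod n) R // (∃ v : ZMod n → R, A = cir v) ∧ A.det = a}

section gen

variable {R : Type*} [CommRing R] {G : Type*} [AddCommGroup G] [Fintype G] [DecidableEq G]

/-- shift matrices -/
def sh (R : Type*) [CommRing R] {G : Type*} [AddCommGroup G] [DecidableEq G] (g : G) :
    Matrix G G R := Matrix.of fun i j => if j = i + g then 1 else 0

omit [Fintype G] in
lemma sh_apply (g i j : G) : sh R g i j = if j = i + g then 1 else 0 := rfl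

lemma sh_mul (g h : G) : sh R g * sh R h = sh R (g + h) := by
  ext i j
  rw [Matrix.mul_apply, sh_apply]
  simp only [sh_apply, ite_mul, one_mul, zero_mul, Finset.sum_ite_eq', Finset.mem_univ, if_true]
  simp only [add_assoc]

omit [Fintype G] in
lemma sh_zero : sh R (0 : G) = 1 := by
  ext i j
  rw [sh_apply, Matrix.one_apply]
  simp only [add_zero, eq_comm]

lemma sh_pow (g : G) (k : ℕ) : (sh R g) ^ k = sh R (k • g) := by
  induction k with
  | zero => rw [pow_zero, zero_smul, sh_zero]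
  | succ k ih => rw [pow_succ, ih, sh_mul, succ_nsmul]

lemma cir_eq (v : G → R) : cir v = ∑ g, v g • sh R g := by
  ext i j
  rw [Matrix.sum_apply]
  simp only [Matrix.smul_apply, sh_apply, smul_eq_mul, mul_ite, mul_one, mul_zero]
  rw [Finset.sum_eq_single (j - i)]
  · simp [cir]
  · intro g _ hg
    rw [if_neg]
    intro h
    apply hg
    rw [h]; abel
  · intro h; exact absurd (Finset.mem_univ _) h

lemma sh_comm (g h : G) : Commute (sh R g) (sh R h) := by
  unfold Commute SemiconjBy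
  rw [sh_mul, sh_mul, add_comm]

lemma cir_pow (p k : ℕ) [Fact p.Prime] [CharP R p] (v : G → R) :
    (cir v) ^ (p ^ k) = ∑ g, (v g) ^ (p ^ k) • sh R ((p ^ k) • g) := by
  haveI : Nonempty G := ⟨0⟩
  haveI : CharP (Matrix G G R) p := inferInstance
  rw [cir_eq]
  have key : ∀ s : Finset G, (∑ g ∈ s, v g • sh R g) ^ (p ^ k)
      = ∑ g ∈ s, (v g) ^ (p ^ k) • sh R ((p ^ k) • g) := by
    intro s
    induction s using Finset.induction_on with
    | empty =>
      simp only [Finset.sum_empty]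
      exact zero_pow (pow_ne_zero _ (Fact.out : p.Prime).ne_zero)
    | insert a s ha ih =>
      rw [Finset.sum_insert ha, Finset.sum_insert ha, ← ih]
      have hc : Commute (v a • sh R a) (∑ g ∈ s, v g • sh R g) := by
        apply Commute.sum_right
        intro g _
        exact ((sh_comm a g).smul_left _).smul_right _
      rw [add_pow_char_pow_of_commute _ _ hc, smul_pow, sh_pow]
  exact key univ

end gen

section prod

variable {R : Type*} [CommRing R] {G₁ G₂ : Type*} [AddCommGroup G₁] [Fintype G₁] [DecidableEq G₁]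
  [AddCommGroup G₂] [Fintype G₂] [DecidableEq G₂]

lemma cir_prod_pow (p k : ℕ) [Fact p.Prime] [CharP R p] (h1 : ∀ g : G₁, (p ^ k) • g = 0)
    (v : G₂ × G₁ → R) :
    (cir v) ^ (p ^ k) = blockDiagonal (fun _ : G₁ =>
      (cir (fun g₂ : G₂ => ∑ g₁ : G₁, v (g₂, g₁))) ^ (p ^ k)) := by
  rw [cir_pow p k, cir_pow p k]
  ext ⟨i2, i1⟩ ⟨j2, j1⟩
  rw [blockDiagonal_apply, Matrix.sum_apply, Matrix.sum_apply, Fintype.sum_prod_type]
  simp only [Matrix.smul_apply, sh_apply, smul_eq_mul, mul_ite, mul_one, mul_zero,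
    Prod.smul_mk, h1, Prod.mk_add_mk, add_zero, Prod.mk.injEq]
  by_cases h : i1 = j1
  · subst h
    simp only [and_true, if_true]
    apply Finset.sum_congr rfl
    intro g _
    by_cases h2 : j2 = i2 + p ^ k • g
    · simp only [h2, if_true]
      rw [sum_pow_char_pow]
    · simp only [h2, if_false, Finset.sum_const_zero]
  · have h' : ¬ j1 = i1 := fun e => h e.symm
    simp only [h, h', and_false, if_false, Finset.sum_const_zero]

lemma det_pow_aux (p k : ℕ) [Fact p.Prime] [CharP R p] (h1 : ∀ g : G₁, (p ^ k) • g = 0)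
    (hc : Fintype.card G₁ = p ^ k) (v : G₂ × G₁ → R) :
    (cir v).det ^ (p ^ k)
      = ((cir (fun g₂ : G₂ => ∑ g₁ : G₁, v (g₂, g₁))).det ^ (p ^ k)) ^ (p ^ k) := by
  rw [← det_pow, cir_prod_pow p k h1, det_blockDiagonal, Finset.prod_const, Finset.card_univ, hc,
    det_pow]

lemma cir_map {S G : Type*} [CommRing S] [AddCommGroup G] [Fintype G] [DecidableEq G]
    (f : R →+* S) (v : G → R) :
    f (cir v).det = (cir (fun g => f (v g))).det := by
  rw [RingHom.map_det]
  rfl

lemma det_prod (p k : ℕ) [Fact p.Prime] [CharP R p] (h1 : ∀ g : G₁, (p ^ k) • g = 0)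
    (hc : Fintype.card G₁ = p ^ k) (v : G₂ × G₁ → R) :
    (cir v).det = (cir (fun g₂ : G₂ => ∑ g₁ : G₁, v (g₂, g₁))).det ^ (p ^ k) := by
  have huniv : (cir (fun g : G₂ × G₁ => (MvPolynomial.X g : MvPolynomial (G₂ × G₁) (ZMod p)))).det
      = (cir (fun g₂ : G₂ => ∑ g₁ : G₁,
        (MvPolynomial.X (g₂, g₁) : MvPolynomial (G₂ × G₁) (ZMod p)))).det ^ (p ^ k) := by
    have h := det_pow_aux (R := MvPolynomial (G₂ × G₁) (ZMod p)) p k h1 hc
      (fun g => MvPolynomial.X g)
    rw [← sub_eq_zero]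
    have h2 := sub_pow_char_pow (R := MvPolynomial (G₂ × G₁) (ZMod p)) (p := p) (n := k)
      (cir (fun g : G₂ × G₁ => (MvPolynomial.X g : MvPolynomial (G₂ × G₁) (ZMod p)))).det
      ((cir (fun g₂ : G₂ => ∑ g₁ : G₁,
        (MvPolynomial.X (g₂, g₁) : MvPolynomial (G₂ × G₁) (ZMod p)))).det ^ (p ^ k))
    rw [h, sub_self] at h2
    exact pow_eq_zero_iff (pow_ne_zero _ (Fact.out : p.Prime).ne_zero) |>.1 h2
  let φ : MvPolynomial (G₂ × G₁) (ZMod p) →+* R :=
    MvPolynomial.eval₂Hom (ZMod.castHom (dvd_refl p) R) v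
  have h3 := congrArg φ huniv
  rw [map_pow, cir_map, cir_map] at h3
  have e1 : (fun g : G₂ × G₁ => φ (MvPolynomial.X g)) = v := by
    funext g; simp [φ]
  have e2 : (fun g₂ : G₂ => φ (∑ g₁ : G₁, MvPolynomial.X (g₂, g₁)))
      = fun g₂ => ∑ g₁ : G₁, v (g₂, g₁) := by
    funext g; simp [φ]
  rw [e1, e2] at h3
  exact h3

end prod

section counting

variable {R : Type*} [CommRing R]

lemma cir_inj {G : Type*} [AddCommGroup G] {v w : G → R} (h : cir v = cir w) : v = w := by
  funext g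
  have := congrFun (congrFun h 0) g
  simpa [cir] using this

lemma count_eq (n : ℕ) [NeZero n] (a : R) :
    count n R a = Nat.card {v : ZMod n → R // (cir v).det = a} := by
  unfold count
  symm
  apply Nat.card_congr
  refine Equiv.ofBijective (fun v => ⟨cir v.1, ⟨v.1, rfl⟩, v.2⟩) ⟨?_, ?_⟩
  · intro v w h
    apply Subtype.ext
    apply cir_inj
    exact congrArg Subtype.val h
  · rintro ⟨A, ⟨v, rfl⟩, hA⟩
    exact ⟨⟨v, hA⟩, rfl⟩

/-- splitting off the values outside `0` -/
def splitEquiv (R : Type*) [CommRing R] (G₂ G₁ : Type*) [AddCommGroup G₁] [Fintype G₁]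
    [DecidableEq G₁] : (G₂ × G₁ → R) ≃ (G₂ → R) × (G₂ × {g : G₁ // g ≠ 0} → R) where
  toFun v := (fun g₂ => ∑ g₁ : G₁, v (g₂, g₁), fun x => v (x.1, x.2.1))
  invFun y := fun x => if h : x.2 = 0 then y.1 x.1 - ∑ z : {g : G₁ // g ≠ 0}, y.2 (x.1, z)
    else y.2 (x.1, ⟨x.2, h⟩)
  left_inv v := by
    funext ⟨g2, g1⟩
    by_cases h : g1 = 0
    · subst h
      simp only [dite_true]
      rw [Fintype.sum_eq_add_sum_subtype_ne (fun g₁ => v (g2, g₁)) 0]
      ring
    · simp only [h, dite_false]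
  right_inv y := by
    apply Prod.ext
    · funext g2
      simp only
      rw [Fintype.sum_eq_add_sum_subtype_ne _ (0 : G₁)]
      simp only [dite_true]
      have : ∀ z : {g : G₁ // g ≠ 0}, (if h : z.1 = 0 then y.1 g2 - ∑ z : {g : G₁ // g ≠ 0}, y.2 (g2, z)
          else y.2 (g2, ⟨z.1, h⟩)) = y.2 (g2, z) := by
        intro z
        rw [dif_neg z.2]
      simp only [this]
      ring
    · funext ⟨g2, z⟩
      simp only
      rw [dif_neg z.2]

lemma card_split [Finite R] {G₂ G₁ : Type*} [Finite G₂] [AddCommGroup G₁] [Fintype G₁]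
    [DecidableEq G₁] (P : (G₂ → R) → Prop) :
    Nat.card {v : G₂ × G₁ → R // P (fun g₂ => ∑ g₁ : G₁, v (g₂, g₁))}
      = Nat.card R ^ (Nat.card G₂ * (Nat.card G₁ - 1)) * Nat.card {w : G₂ → R // P w} := by
  have e1 : {v : G₂ × G₁ → R // P (fun g₂ => ∑ g₁ : G₁, v (g₂, g₁))}
      ≃ {y : (G₂ → R) × (G₂ × {g : G₁ // g ≠ 0} → R) // P y.1} :=
    (splitEquiv R G₂ G₁).subtypeEquiv (fun v => Iff.rfl)
  have e2 : {y : (G₂ → R) × (G₂ × {g : G₁ // g ≠ 0} → R) // P y.1}
      ≃ {w : G₂ → R // P w} × (G₂ × {g : G₁ // g ≠ 0} → R) :=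
    { toFun := fun y => (⟨y.1.1, y.2⟩, y.1.2)
      invFun := fun y => ⟨(y.1.1, y.2), y.1.2⟩
      left_inv := fun y => rfl
      right_inv := fun y => rfl }
  rw [Nat.card_congr (e1.trans e2), Nat.card_prod, Nat.card_fun, Nat.card_prod, mul_comm]
  congr 3
  rw [Nat.card_eq_fintype_card, Nat.card_eq_fintype_card, Fintype.card_subtype_compl,
    Fintype.card_subtype_eq]

/-- **Reduction.** In characteristic `p`, the counts for `n = p ^ k * m` (with `p ∤ m`) are
determined by the counts for `m`. -/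
theorem reduction (p k m n : ℕ) [Fact p.Prime] [NeZero m] [NeZero n] (hm : m.Coprime p)
    (hn : n = p ^ k * m) (R : Type*) [CommRing R] [Fintype R] [DecidableEq R] [CharP R p]
    (a : R) :
    count n R a = Fintype.card R ^ (n - m) * ∑ b : {b : R // b ^ (p ^ k) = a}, count m R b.1 := by
  haveI : NeZero (p ^ k) := ⟨pow_ne_zero _ (Fact.out : p.Prime).ne_zero⟩
  have hcop : m.Coprime (p ^ k) := Nat.Coprime.pow_right k hm
  have hn' : n = m * p ^ k := by rw [hn, mul_comm]
  have hnm : m * (p ^ k - 1) = n - m := by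
    rw [hn', Nat.mul_sub, mul_one]
  clear hn
  subst hn'
  let e := ZMod.chineseRemainder hcop
  have hdet : ∀ v : ZMod (m * p ^ k) → R, (cir v).det = (cir (fun x => v (e.symm x))).det := by
    intro v
    have : cir v = (cir (fun x => v (e.symm x))).submatrix e.toEquiv e.toEquiv := by
      ext i j
      simp only [cir, Matrix.submatrix_apply, Matrix.of_apply]
      congr 1
      have : e.toEquiv j - e.toEquiv i = e (j - i) := by
        rw [map_sub]; rfl
      rw [this, RingEquiv.symm_apply_apply]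
    rw [this, Matrix.det_submatrix_equiv_self]
  have h1 : ∀ g : ZMod (p ^ k), (p ^ k) • g = 0 := by
    intro g
    rw [nsmul_eq_mul, ZMod.natCast_self, zero_mul]
  have hc : Fintype.card (ZMod (p ^ k)) = p ^ k := ZMod.card _
  rw [count_eq]
  have e3 : {v : ZMod (m * p ^ k) → R // (cir v).det = a}
      ≃ {v : ZMod m × ZMod (p ^ k) → R // (cir (fun g₂ : ZMod m =>
          ∑ g₁ : ZMod (p ^ k), v (g₂, g₁))).det ^ (p ^ k) = a} := by
    refine (Equiv.arrowCongr e.toEquiv (Equiv.refl R)).subtypeEquiv (fun v => ?_)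
    rw [hdet v, ← det_prod p k h1 hc]
    rfl
  rw [Nat.card_congr e3, card_split (fun w : ZMod m → R => (cir w).det ^ (p ^ k) = a)]
  rw [Nat.card_zmod, Nat.card_zmod, hnm, Nat.card_eq_fintype_card (α := R)]
  congr 1
  have e4 : {w : ZMod m → R // (cir w).det ^ (p ^ k) = a}
      ≃ Σ b : {b : R // b ^ (p ^ k) = a}, {w : ZMod m → R // (cir w).det = b.1} :=
    { toFun := fun w => ⟨⟨(cir w.1).det, w.2⟩, ⟨w.1, rfl⟩⟩
      invFun := fun y => ⟨y.2.1, by rw [y.2.2]; exact y.1.2⟩
      left_inv := fun w => rfl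
      right_inv := by
        rintro ⟨⟨b, hb⟩, ⟨w, hw⟩⟩
        cases hw
        rfl }
  rw [Nat.card_congr e4, Nat.card_sigma]
  apply Finset.sum_congr rfl
  intro b _
  rw [count_eq]

end counting

section chain

open IsLocalRing

variable {R : Type*} [CommRing R] [IsLocalRing R]

lemma card_step [Finite R] (γ : R) (hγ : maximalIdeal R = Ideal.span {γ}) (s : ℕ)
    (hs : γ ^ s ≠ 0) :
    Nat.card (Ideal.span {γ ^ s} : Ideal R)
      = Nat.card (R ⧸ maximalIdeal R) * Nat.card (Ideal.span {γ ^ (s + 1)} : Ideal R) := by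
  rw [← Nat.card_prod]
  symm
  apply Nat.card_congr
  let σ : R ⧸ maximalIdeal R → R := fun x => (Ideal.Quotient.mk_surjective x).choose
  have hσ : ∀ x, Ideal.Quotient.mk (maximalIdeal R) (σ x) = x :=
    fun x => (Ideal.Quotient.mk_surjective x).choose_spec
  refine Equiv.ofBijective (fun x => ⟨γ ^ s * σ x.1 + x.2.1, ?_⟩) ⟨?_, ?_⟩
  · apply Ideal.add_mem
    · exact Ideal.mem_span_singleton'.2 ⟨σ x.1, by ring⟩
    · obtain ⟨r, hr⟩ := Ideal.mem_span_singleton'.1 x.2.2
      exact Ideal.mem_span_singleton'.2 ⟨r * γ, by rw [← hr]; ring⟩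
  · rintro ⟨x, ⟨y, hy⟩⟩ ⟨x', ⟨y', hy'⟩⟩ h
    have h0 : γ ^ s * σ x + y = γ ^ s * σ x' + y' := congrArg Subtype.val h
    obtain ⟨r, hr⟩ := Ideal.mem_span_singleton'.1 hy
    obtain ⟨r', hr'⟩ := Ideal.mem_span_singleton'.1 hy'
    have hx : x = x' := by
      by_contra hne
      have hnm : σ x - σ x' ∉ maximalIdeal R := by
        intro hm
        apply hne
        rw [← hσ x, ← hσ x']
        exact (Ideal.Quotient.eq).2 hm
      have hu : IsUnit (σ x - σ x' + (r - r') * γ) := by
        by_contra hnu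
        have h1 : σ x - σ x' + (r - r') * γ ∈ maximalIdeal R := (mem_maximalIdeal _).2 hnu
        apply hnm
        have h2 : (r - r') * γ ∈ maximalIdeal R := by
          rw [hγ]; exact Ideal.mem_span_singleton'.2 ⟨_, rfl⟩
        have h3 := Ideal.sub_mem _ h1 h2
        simpa using h3
      have hz : γ ^ s * (σ x - σ x' + (r - r') * γ) = 0 := by
        have h4 : γ ^ s * (σ x - σ x' + (r - r') * γ)
            = (γ ^ s * σ x + r * γ ^ (s + 1)) - (γ ^ s * σ x' + r' * γ ^ (s + 1)) := by ring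
        rw [h4, hr, hr', h0, sub_self]
      exact hs ((hu.mul_left_eq_zero).1 hz)
    subst hx
    have hy0 : y = y' := by linear_combination h0
    subst hy0
    rfl
  · rintro ⟨z, hz⟩
    obtain ⟨t, ht⟩ := Ideal.mem_span_singleton'.1 hz
    have hm : t - σ (Ideal.Quotient.mk _ t) ∈ maximalIdeal R := by
      rw [← Ideal.Quotient.eq, hσ]
    have hm' : t - σ (Ideal.Quotient.mk _ t) ∈ Ideal.span {γ} := (SetLike.ext_iff.1 hγ _).1 hm
    obtain ⟨r, hr⟩ := Ideal.mem_span_singleton'.1 hm'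
    refine ⟨(Ideal.Quotient.mk _ t, ⟨r * γ ^ (s + 1), Ideal.mem_span_singleton'.2 ⟨r, rfl⟩⟩), ?_⟩
    apply Subtype.ext
    simp only
    rw [← ht]
    linear_combination γ ^ s * hr

lemma card_span [Finite R] (γ : R) (hγ : maximalIdeal R = Ideal.span {γ}) (e : ℕ)
    (he : γ ^ e = 0) (he' : ∀ i < e, γ ^ i ≠ 0) (d : ℕ) (hd : d ≤ e) :
    Nat.card (Ideal.span {γ ^ (e - d)} : Ideal R) = Nat.card (R ⧸ maximalIdeal R) ^ d := by
  induction d with
  | zero =>
    rw [Nat.sub_zero, he, pow_zero, Ideal.span_singleton_eq_bot.2 rfl]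
    exact Nat.card_unique
  | succ d ih =>
    rw [card_step γ hγ (e - (d + 1)) (he' _ (by omega))]
    have : e - (d + 1) + 1 = e - d := by omega
    rw [this, ih (by omega), pow_succ, mul_comm]

lemma card_ring [Finite R] (γ : R) (hγ : maximalIdeal R = Ideal.span {γ}) (e : ℕ)
    (he : γ ^ e = 0) (he' : ∀ i < e, γ ^ i ≠ 0) :
    Nat.card R = Nat.card (R ⧸ maximalIdeal R) ^ e := by
  rw [← card_span γ hγ e he he' e le_rfl, Nat.sub_self, pow_zero, Ideal.span_singleton_one]
  exact Nat.card_congr (Submodule.topEquiv (R := R) (M := R)).symm.toEquiv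

lemma decomp (γ : R) (hγ : maximalIdeal R = Ideal.span {γ}) (e : ℕ) (he : γ ^ e = 0) (b : R) :
    ∃ s, ∃ u, IsUnit u ∧ b = γ ^ s * u := by
  have key : ∀ d s, s + d = e → (∃ t, b = γ ^ s * t) → ∃ s, ∃ u, IsUnit u ∧ b = γ ^ s * u := by
    intro d
    induction d with
    | zero =>
      rintro s hs ⟨t, ht⟩
      have hse : s = e := by omega
      refine ⟨e, 1, isUnit_one, ?_⟩
      rw [ht, hse, he, zero_mul, zero_mul]
    | succ d ih =>
      rintro s hs ⟨t, ht⟩
      by_cases hu : IsUnit t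
      · exact ⟨s, t, hu, ht⟩
      · have hm : t ∈ maximalIdeal R := (mem_maximalIdeal _).2 hu
        rw [hγ] at hm
        obtain ⟨r, hr⟩ := Ideal.mem_span_singleton'.1 hm
        exact ih (s + 1) (by omega) ⟨r, by rw [ht, ← hr]; ring⟩
  exact key e 0 (by omega) ⟨b, by simp⟩

lemma pow_eq_zero_iff_mem (γ : R) (hγ : maximalIdeal R = Ideal.span {γ}) (e : ℕ)
    (he : γ ^ e = 0) (he' : ∀ i < e, γ ^ i ≠ 0) (n : ℕ) (hn : 0 < n) (b : R) :
    b ^ n = 0 ↔ b ∈ Ideal.span {γ ^ ((e + n - 1) / n)} := by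
  have hc : ∀ s, (e + n - 1) / n ≤ s ↔ e ≤ s * n := by
    intro s
    rw [← Nat.lt_succ_iff, Nat.div_lt_iff_lt_mul hn, Nat.succ_mul]
    omega
  constructor
  · intro h
    obtain ⟨s, u, hu, hb⟩ := decomp γ hγ e he b
    have h1 : γ ^ (s * n) = 0 := by
      have h2 : γ ^ (s * n) * u ^ n = 0 := by rw [pow_mul, ← mul_pow, ← hb, h]
      exact ((hu.pow n).mul_left_eq_zero).1 h2
    have h3 : e ≤ s * n := by
      by_contra hlt
      exact he' _ (by omega) h1
    have h4 := (hc s).2 h3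
    refine Ideal.mem_span_singleton'.2 ⟨γ ^ (s - (e + n - 1) / n) * u, ?_⟩
    rw [hb]
    have h5 : γ ^ s = γ ^ (s - (e + n - 1) / n) * γ ^ ((e + n - 1) / n) := by
      rw [← pow_add]; congr 1; omega
    rw [h5]; ring
  · intro h
    obtain ⟨r, hr⟩ := Ideal.mem_span_singleton'.1 h
    have h3 := (hc _).1 (le_refl ((e + n - 1) / n))
    rw [← hr, mul_pow, ← pow_mul]
    have h5 : γ ^ ((e + n - 1) / n * n) = γ ^ ((e + n - 1) / n * n - e) * γ ^ e := by
      rw [← pow_add]; congr 1; omega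
    rw [h5, he, mul_zero, mul_zero]

end chain

lemma count_one (R : Type*) [CommRing R] (a : R) : count 1 R a = 1 := by
  rw [count_eq]
  have hd : ∀ v : ZMod 1 → R, (cir v).det = v 0 := by
    intro v
    rw [Matrix.det_eq_elem_of_subsingleton _ (0 : ZMod 1)]
    simp [cir]
  rw [Nat.card_eq_one_iff_unique]
  refine ⟨⟨?_⟩, ⟨⟨fun _ => a, hd _⟩⟩⟩
  rintro ⟨v, hv⟩ ⟨w, hw⟩
  apply Subtype.ext
  funext i
  rw [hd] at hv hw
  have : i = 0 := Subsingleton.elim _ _
  rw [this]
  exact hv.trans hw.symm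

lemma card_roots (p k N : ℕ) [Fact p.Prime] (hn : N = p ^ k) (hnpos : 0 < N)
    (R : Type*) [CommRing R] [Fintype R] [DecidableEq R] [IsLocalRing R] [CharP R p]
    (γ : R) (hγ : IsLocalRing.maximalIdeal R = Ideal.span {γ}) (e : ℕ)
    (he : γ ^ e = 0) (he' : ∀ i < e, γ ^ i ≠ 0) (a b0 : R) (hb0 : b0 ^ N = a) :
    Fintype.card {b : R // b ^ N = a}
      = Nat.card (R ⧸ IsLocalRing.maximalIdeal R) ^ (e - (e + N - 1) / N) := by
  rw [← card_span γ hγ e he he' (e - (e + N - 1) / N) (Nat.sub_le _ _)]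
  have hle : (e + N - 1) / N ≤ e := by
    rw [← Nat.lt_succ_iff, Nat.div_lt_iff_lt_mul hnpos, Nat.succ_mul]
    have : e ≤ e * N := Nat.le_mul_of_pos_right e hnpos
    omega
  have hs : e - (e - (e + N - 1) / N) = (e + N - 1) / N := Nat.sub_sub_self hle
  rw [hs, ← Nat.card_eq_fintype_card]
  apply Nat.card_congr
  have hsub : ∀ x y : R, (x - y) ^ N = x ^ N - y ^ N := by
    intro x y
    rw [hn]
    exact sub_pow_char_pow x y k
  have hadd : ∀ x y : R, (x + y) ^ N = x ^ N + y ^ N := by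
    intro x y
    rw [hn]
    exact add_pow_char_pow x y p k
  exact
    { toFun := fun b => ⟨b.1 - b0, by
        rw [← pow_eq_zero_iff_mem γ hγ e he he' N hnpos, hsub, b.2, hb0, sub_self]⟩
      invFun := fun z => ⟨z.1 + b0, by
        rw [hadd, (pow_eq_zero_iff_mem γ hγ e he he' N hnpos z.1).2 z.2, hb0, zero_add]⟩
      left_inv := fun b => by simp
      right_inv := fun z => by simp }

section assoc

lemma cir_mul {R : Type*} [CommRing R] {G : Type*} [AddCommGroup G] [Fintype G] [DecidableEq G]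
    (v w : G → R) :
    cir v * cir w = cir (fun g => ∑ t, v t * w (g - t)) := by
  ext i j
  rw [Matrix.mul_apply]
  simp only [cir, Matrix.of_apply]
  rw [← Equiv.sum_comp (Equiv.subRight i) (fun t => v t * w (j - i - t))]
  apply Finset.sum_congr rfl
  intro l _
  simp only [Equiv.subRight_apply]
  congr 2
  abel

lemma exists_det {R : Type*} [CommRing R] (m : ℕ) [NeZero m] (hm : IsUnit (m : R)) (u : R) :
    ∃ v : ZMod m → R, (cir v).det = u := by
  obtain ⟨w, hw⟩ := hm
  let y : R := (↑w⁻¹ : R) * (u - 1)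
  refine ⟨fun g => (if g = 0 then 1 else 0) + y, ?_⟩
  have h1 : cir (fun g : ZMod m => (if g = 0 then (1 : R) else 0) + y)
      = 1 + replicateCol Unit (fun _ : ZMod m => y) * replicateRow Unit (fun _ : ZMod m => (1 : R)) := by
    ext i j
    rw [Matrix.add_apply, Matrix.mul_apply, Matrix.one_apply]
    simp only [cir, Matrix.of_apply, replicateCol_apply, replicateRow_apply, mul_one,
      Finset.univ_unique, Finset.sum_const, Finset.card_singleton, one_smul, sub_eq_zero]
    congr 1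
    by_cases h : i = j
    · simp [h]
    · have h' : ¬ j = i := fun e => h e.symm
      simp [h, h']
  rw [h1, det_one_add_replicateCol_mul_replicateRow]
  have h2 : (fun _ : ZMod m => (1 : R)) ⬝ᵥ (fun _ : ZMod m => y) = (m : R) * y := by
    simp [dotProduct, ZMod.card]
  rw [h2]
  have h3 : (m : R) * y = u - 1 := by
    show (m : R) * ((↑w⁻¹ : R) * (u - 1)) = u - 1
    rw [← hw, ← mul_assoc, Units.mul_inv, one_mul]
  rw [h3]; ring

lemma count_le {R : Type*} [CommRing R] [Finite R] (m : ℕ) [NeZero m] (hm : IsUnit (m : R))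
    (b u : R) (hu : IsUnit u) : count m R b ≤ count m R (u * b) := by
  obtain ⟨v, hv⟩ := exists_det m hm u
  unfold count
  have hfin : Finite (Matrix (ZMod m) (ZMod m) R) := by
    unfold Matrix
    infer_instance
  refine Nat.card_le_card_of_injective
    (f := fun A => ⟨cir v * A.1, ?_, ?_⟩) ?_
  · obtain ⟨w, hw⟩ := A.2.1
    exact ⟨_, by rw [hw, cir_mul]⟩
  · rw [det_mul, hv, A.2.2]
  · intro A B h
    apply Subtype.ext
    have h1 : cir v * A.1 = cir v * B.1 := congrArg Subtype.val h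
    have h2 : IsUnit (cir v) := (Matrix.isUnit_iff_isUnit_det _).2 (by rw [hv]; exact hu)
    exact h2.mul_left_cancel h1

lemma count_assoc {R : Type*} [CommRing R] [Finite R] (m : ℕ) [NeZero m] (hm : IsUnit (m : R))
    (b u : R) (hu : IsUnit u) : count m R (u * b) = count m R b := by
  apply le_antisymm _ (count_le m hm b u hu)
  obtain ⟨w, rfl⟩ := hu
  have := count_le m hm (↑w * b) (↑w⁻¹ : R) (Units.isUnit _)
  rwa [← mul_assoc, Units.inv_mul, one_mul] at this

open IsLocalRing in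
lemma assoc_of_pow {R : Type*} [CommRing R] [IsLocalRing R]
    (γ : R) (hγ : maximalIdeal R = Ideal.span {γ}) (e : ℕ) (he : γ ^ e = 0)
    (N : ℕ) (hN : 0 < N) (b b0 : R) (h : b ^ N = b0 ^ N) (hne : b0 ^ N ≠ 0) :
    ∃ u, IsUnit u ∧ b = u * b0 := by
  obtain ⟨s, u, hu, hb⟩ := decomp γ hγ e he b
  obtain ⟨t, v, hv, hb0⟩ := decomp γ hγ e he b0
  have hγm : γ ∈ maximalIdeal R := by rw [hγ]; exact Ideal.mem_span_singleton_self γ
  -- a general fact
  have key : ∀ (s t : ℕ) (u v : R), IsUnit u → s < t →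
      (γ ^ s * u) ^ N = (γ ^ t * v) ^ N → (γ ^ s * u) ^ N = 0 := by
    intro s t u v hu hst heq
    have h1 : γ ^ (s * N) * (u ^ N - γ ^ ((t - s) * N) * v ^ N) = 0 := by
      have h2 : γ ^ (s * N) * (γ ^ ((t - s) * N) * v ^ N) = (γ ^ t * v) ^ N := by
        rw [mul_pow, ← pow_mul, ← mul_assoc, ← pow_add, ← add_mul]
        congr 3
        omega
      rw [mul_sub, h2, ← heq, mul_pow, ← pow_mul, sub_self]
    have h3 : IsUnit (u ^ N - γ ^ ((t - s) * N) * v ^ N) := by
      by_contra hnu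
      have h4 : u ^ N - γ ^ ((t - s) * N) * v ^ N ∈ maximalIdeal R := (mem_maximalIdeal _).2 hnu
      have h5 : γ ^ ((t - s) * N) * v ^ N ∈ maximalIdeal R := by
        apply Ideal.mul_mem_right
        apply Ideal.pow_mem_of_mem _ hγm
        exact Nat.mul_pos (by omega) hN
      have h6 : u ^ N ∈ maximalIdeal R := by
        have := Ideal.add_mem _ h4 h5
        simpa using this
      exact (mem_maximalIdeal _).1 h6 (hu.pow N)
    have h7 : γ ^ (s * N) = 0 := (h3.mul_left_eq_zero).1 h1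
    rw [mul_pow, ← pow_mul, h7, zero_mul]
  have hst : s = t := by
    rcases lt_trichotomy s t with hlt | heq | hgt
    · exfalso
      apply hne
      rw [← h, hb]
      apply key s t u v hu hlt
      rw [← hb, ← hb0, h]
    · exact heq
    · exfalso
      apply hne
      rw [hb0]
      apply key t s v u hv hgt
      rw [← hb, ← hb0, h]
  subst hst
  obtain ⟨v', rfl⟩ := hv
  refine ⟨u * (↑v'⁻¹ : R), hu.mul (Units.isUnit _), ?_⟩
  rw [hb, hb0]
  calc γ ^ s * u = u * (↑v'⁻¹ * ↑v') * γ ^ s := by rw [Units.inv_mul]; ring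
    _ = u * ↑v'⁻¹ * (γ ^ s * ↑v') := by ring

end assoc

/-- The counts of nonzero `a`, and of all `a` when `m = 1`. -/
theorem explicit (p k m n : ℕ) [Fact p.Prime] [NeZero m] [NeZero n] (hm : m.Coprime p)
    (hn : n = p ^ k * m)
    (R : Type*) [CommRing R] [Fintype R] [DecidableEq R] [IsLocalRing R] [CharP R p]
    (γ : R) (hγ : IsLocalRing.maximalIdeal R = Ideal.span {γ}) (e : ℕ)
    (he : γ ^ e = 0) (he' : ∀ i < e, γ ^ i ≠ 0) (a : R) :
    (∀ b : R, b ^ (p ^ k) = a → (a ≠ 0 ∨ m = 1) → count n R a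
        = Nat.card (R ⧸ IsLocalRing.maximalIdeal R)
            ^ (e * (n - m) + (e - (e + p ^ k - 1) / p ^ k)) * count m R b) ∧
      ((¬ ∃ b : R, b ^ (p ^ k) = a) → count n R a = 0) := by
  have hNpos : 0 < p ^ k := pow_pos (Fact.out : p.Prime).pos _
  have h1 := reduction p k m n hm hn R a
  have hR := card_ring γ hγ e he he'
  rw [Nat.card_eq_fintype_card] at hR
  constructor
  · intro b0 hb0 hor
    have hmu : IsUnit (m : R) := by
      have h2 : IsUnit ((m : ZMod p)) := by
        rw [ZMod.isUnit_iff_coprime]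
        exact hm
      have h3 := h2.map (ZMod.castHom (dvd_refl p) R)
      simpa using h3
    have hsum : ∀ b : {b : R // b ^ (p ^ k) = a}, count m R b.1 = count m R b0 := by
      rintro ⟨b, hb⟩
      rcases hor with hne | h1'
      · obtain ⟨u, hu, hbu⟩ := assoc_of_pow γ hγ e he (p ^ k) hNpos b b0 (hb.trans hb0.symm)
          (by rw [hb0]; exact hne)
        show count m R b = count m R b0
        rw [hbu]
        exact count_assoc m hmu b0 u hu
      · subst h1'
        have : (inferInstance : NeZero 1) = ‹NeZero 1› := Subsingleton.elim _ _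
        show count 1 R b = count 1 R b0
        have c1 : ∀ x : R, count 1 R x = 1 := count_one R
        rw [c1, c1]
    rw [h1, Finset.sum_congr rfl (fun b _ => hsum b), Finset.sum_const, Finset.card_univ,
      card_roots p k (p ^ k) rfl hNpos R γ hγ e he he' a b0 hb0, hR, ← pow_mul, smul_eq_mul,
      ← mul_assoc, ← pow_add]
  · intro hne
    have h0 : IsEmpty {b : R // b ^ (p ^ k) = a} := ⟨fun b => hne ⟨b.1, b.2⟩⟩
    rw [h1, Finset.univ_eq_empty, Finset.sum_empty, mul_zero]

/-- Counting circulant matrices by determinant in characteristic `p`, for `n = p ^ k * m` with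
`p ∤ m`. -/
theorem result (p k m n : ℕ) [Fact p.Prime] [NeZero m] [NeZero n] (hm : m.Coprime p)
    (hn : n = p ^ k * m) (R : Type*) [CommRing R] [Fintype R] [DecidableEq R] [CharP R p] :
    (∀ a : R, count n R a
      = Fintype.card R ^ (n - m) * ∑ b : {b : R // b ^ (p ^ k) = a}, count m R b.1) ∧
    (∀ [IsLocalRing R] (γ : R) (e : ℕ), IsLocalRing.maximalIdeal R = Ideal.span {γ} →
      γ ^ e = 0 → (∀ i < e, γ ^ i ≠ 0) →
      (∀ a : R, (¬ ∃ b : R, b ^ (p ^ k) = a) → count n R a = 0) ∧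
      (∀ a b : R, b ^ (p ^ k) = a → a ≠ 0 →
        count n R a = Nat.card (R ⧸ IsLocalRing.maximalIdeal R)
          ^ (e * (n - m) + (e - (e + p ^ k - 1) / p ^ k)) * count m R b) ∧
      (m = 1 → ∀ a b : R, b ^ n = a →
        count n R a = Nat.card (R ⧸ IsLocalRing.maximalIdeal R)
          ^ (e * (n - 1) + (e - (e + n - 1) / n)))) := by
  refine ⟨reduction p k m n hm hn R, ?_⟩
  intro _ γ e hγ he he'
  refine ⟨fun a ha => (explicit p k m n hm hn R γ hγ e he he' a).2 ha,
    fun a b hb hne => (explicit p k m n hm hn R γ hγ e he he' a).1 b hb (Or.inl hne), ?_⟩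
  intro hm1 a b hb
  have hnk : n = p ^ k := by rw [hn, hm1, mul_one]
  have h := (explicit p k m n hm hn R γ hγ e he he' a).1 b (by rw [← hnk]; exact hb) (Or.inr hm1)
  subst hm1
  rw [h, show count 1 R b = 1 from count_one R b, mul_one, ← hnk]

end Pool.Agent.Results.MP_975ab8_al.CharP
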